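import Pool.Agent.H80.KAL.RIX

/-!
# The budget along a chain of points and lines

`h b x` is the logarithmic jet size at the point `x` of a polynomial depending on `b`, and
`M b l` is the logarithm of the supremum over the line `l`.
-/

set_option autoImplicit false

namespace Pool.KAL

open Finset Real MeasureTheory
open Pool.Agent.H49.Ent Pool.Agent.H32.Dense Pool.STK Pool.KAF

/-- One step: from the point `x` along the line `l` to the point `x'`. -/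
def STPStmt : Prop :=
  ∀ D : ℕ, ∃ C : ℝ, 0 ≤ C ∧ ∀ (Ω X L B Y ι : Type) [Fintype Ω] (p : Ω → ℝ) (N : ℕ)
    (x x' : Ω → X) (l : Ω → L) (b : Ω → B) (y : Ω → Y) (τ : Ω → ℕ) (h : B → X → ℝ)
    (M : B → L → ℝ) (P : B → L → ι → Polynomial ℝ) (c₁ : ℝ), IsLaw p → (∀ ω, τ ω < N) →
    (∀ ω, 0 < p ω → ∃ j, (P (b ω) (l ω) j).natDegree ≤ D ∧
      (∃ s ∈ Set.Icc (0 : ℝ) 1, Real.exp (M (b ω) (l ω)) ≤ |(P (b ω) (l ω) j).eval s|) ∧
      ∀ ω', 0 < p ω' → b ω' = b ω → l ω' = l ω →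
        |(P (b ω) (l ω) j).eval ((τ ω' : ℝ) / N)| ≤ Real.exp (h (b ω') (x ω') + c₁)) →
    (∀ ω, 0 < p ω → M (b ω) (l ω) - D * Real.log N ≤ h (b ω) (x ω) + c₁) →
    (∀ ω, 0 < p ω → h (b ω) (x' ω) ≤ M (b ω) (l ω) + c₁) →
    Ex p (fun ω => h (b ω) (x' ω)) ≤ Ex p (fun ω => h (b ω) (x ω)) +
      2 * D * ((Real.log N - CH p τ (fun ω => (l ω, (b ω, y ω)))) + C) + 2 * c₁

/-- Entropy part of the forward budget. -/
def BUEStmt : Prop :=
  ∀ (Ω X L B Y T : Type) [Fintype Ω] (p : Ω → ℝ) (n : ℕ) (x : ℕ → Ω → X) (l : ℕ → Ω → L)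
    (b : Ω → B) (y : Ω → Y) (τ : ℕ → X → T), IsLaw p →
    (∀ i < n, CH p b (fun ω => (x i ω, (l i ω, y ω))) = CH p b (fun ω => (x i ω, y ω))) →
    (∀ i < n, CH p b (fun ω => (l i ω, (x (i + 1) ω, y ω))) =
      CH p b (fun ω => (l i ω, y ω))) →
    ∑ i ∈ range n, (CH p (fun ω => τ i (x i ω)) (fun ω => (l i ω, y ω)) -
      CH p (fun ω => τ i (x i ω)) (fun ω => (l i ω, (b ω, y ω)))) ≤
      CH p b (fun ω => (x n ω, y ω))

/-- Entropy part of the backward budget. -/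
def BUBStmt : Prop :=
  ∀ (Ω X L B B' Y T : Type) [Fintype Ω] (p : Ω → ℝ) (n : ℕ) (x : ℕ → Ω → X) (l : ℕ → Ω → L)
    (b₀ : Ω → B) (bn : Ω → B') (y : Ω → Y) (τ : ℕ → X → T), IsLaw p →
    (∀ i < n, CH p (x (i + 1)) (fun ω => (l i ω, (b₀ ω, (bn ω, y ω)))) =
      CH p (x (i + 1)) (fun ω => (l i ω, (bn ω, y ω)))) →
    (∀ i < n, CH p bn (fun ω => (x i ω, (l i ω, y ω))) = CH p bn (fun ω => (l i ω, y ω))) →
    (∀ i < n, CH p bn (fun ω => (x (i + 1) ω, (l i ω, y ω))) =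
      CH p bn (fun ω => (x (i + 1) ω, y ω))) →
    ∑ i ∈ range n, (CH p (fun ω => τ i (x (i + 1) ω)) (fun ω => (l i ω, y ω)) -
      CH p (fun ω => τ i (x (i + 1) ω)) (fun ω => (l i ω, (b₀ ω, (bn ω, y ω))))) ≤
      CH p bn (fun ω => (x 0 ω, y ω))

/-- **Forward budget.** `b` is a function of the first point, or more generally independent of
the rest of the chain given the first point. -/
def BUDStmt : Prop :=
  ∀ D : ℕ, ∃ C : ℝ, 0 ≤ C ∧ ∀ (Ω X L B Y ι : Type) [Fintype Ω] (p : Ω → ℝ) (N n : ℕ)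
    (x : ℕ → Ω → X) (l : ℕ → Ω → L) (b : Ω → B) (y : Ω → Y) (τ : X → ℕ) (h : B → X → ℝ)
    (M : B → L → ℝ) (P : B → L → ι → Polynomial ℝ) (c₁ e : ℝ), IsLaw p →
    (∀ i < n, ∀ ω, τ (x i ω) < N) →
    (∀ i < n, ∀ ω, 0 < p ω → ∃ j, (P (b ω) (l i ω) j).natDegree ≤ D ∧
      (∃ s ∈ Set.Icc (0 : ℝ) 1, Real.exp (M (b ω) (l i ω)) ≤
        |(P (b ω) (l i ω) j).eval s|) ∧
      ∀ ω', 0 < p ω' → b ω' = b ω → l i ω' = l i ω →
        |(P (b ω) (l i ω) j).eval ((τ (x i ω') : ℝ) / N)| ≤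
          Real.exp (h (b ω') (x i ω') + c₁)) →
    (∀ i < n, ∀ ω, 0 < p ω → M (b ω) (l i ω) - D * Real.log N ≤ h (b ω) (x i ω) + c₁) →
    (∀ i < n, ∀ ω, 0 < p ω → h (b ω) (x (i + 1) ω) ≤ M (b ω) (l i ω) + c₁) →
    (∀ i < n, CH p b (fun ω => (x i ω, (l i ω, y ω))) = CH p b (fun ω => (x i ω, y ω))) →
    (∀ i < n, CH p b (fun ω => (l i ω, (x (i + 1) ω, y ω))) =
      CH p b (fun ω => (l i ω, y ω))) →
    (∀ i < n, Real.log N - CH p (fun ω => τ (x i ω)) (fun ω => (l i ω, y ω)) ≤ e) →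
    Ex p (fun ω => h (b ω) (x n ω)) ≤ Ex p (fun ω => h (b ω) (x 0 ω)) +
      2 * D * (CH p b (fun ω => (x n ω, y ω)) + n * (e + C)) + n * (2 * c₁)

/-- **Backward budget.** `β` is independent of the chain given the labels `b₀`, `bn` and `y`. -/
def BUPStmt : Prop :=
  ∀ D : ℕ, ∃ C : ℝ, 0 ≤ C ∧ ∀ (Ω X L B B' Bβ Y ι : Type) [Fintype Ω] (p : Ω → ℝ) (N n : ℕ)
    (x : ℕ → Ω → X) (l : ℕ → Ω → L) (b₀ : Ω → B) (bn : Ω → B') (β : Ω → Bβ) (y : Ω → Y)
    (τ : X → ℕ) (h : Bβ → X → ℝ)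
    (M : Bβ → L → ℝ) (P : Bβ → L → ι → Polynomial ℝ) (c₁ e : ℝ), IsLaw p →
    (∀ i < n, ∀ ω, τ (x (i + 1) ω) < N) →
    (∀ i < n, ∀ ω, 0 < p ω → ∃ j, (P (β ω) (l i ω) j).natDegree ≤ D ∧
      (∃ s ∈ Set.Icc (0 : ℝ) 1, Real.exp (M (β ω) (l i ω)) ≤
        |(P (β ω) (l i ω) j).eval s|) ∧
      ∀ ω', 0 < p ω' → β ω' = β ω → l i ω' = l i ω →
        |(P (β ω) (l i ω) j).eval ((τ (x (i + 1) ω') : ℝ) / N)| ≤
          Real.exp (h (β ω') (x (i + 1) ω') + c₁)) →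
    (∀ i < n, ∀ ω, 0 < p ω →
      M (β ω) (l i ω) - D * Real.log N ≤ h (β ω) (x (i + 1) ω) + c₁) →
    (∀ i < n, ∀ ω, 0 < p ω → h (β ω) (x i ω) ≤ M (β ω) (l i ω) + c₁) →
    (∀ i < n, CH p (fun ω => τ (x (i + 1) ω)) (fun ω => (l i ω, (b₀ ω, (bn ω, y ω)))) ≤
      CH p (fun ω => τ (x (i + 1) ω)) (fun ω => (l i ω, (β ω, y ω)))) →
    (∀ i < n, CH p (x (i + 1)) (fun ω => (l i ω, (b₀ ω, (bn ω, y ω)))) =
      CH p (x (i + 1)) (fun ω => (l i ω, (bn ω, y ω)))) →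
    (∀ i < n, CH p bn (fun ω => (x i ω, (l i ω, y ω))) = CH p bn (fun ω => (l i ω, y ω))) →
    (∀ i < n, CH p bn (fun ω => (x (i + 1) ω, (l i ω, y ω))) =
      CH p bn (fun ω => (x (i + 1) ω, y ω))) →
    (∀ i < n, Real.log N - CH p (fun ω => τ (x (i + 1) ω)) (fun ω => (l i ω, y ω)) ≤ e) →
    Ex p (fun ω => h (β ω) (x 0 ω)) ≤ Ex p (fun ω => h (β ω) (x n ω)) +
      2 * D * (CH p bn (fun ω => (x 0 ω, y ω)) + n * (e + C)) + n * (2 * c₁)

theorem stp_thm (hRIX : RIXStmt) : STPStmt := by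
  intro D
  obtain ⟨C, hC, hC'⟩ := hRIX D
  refine ⟨C, hC, ?_⟩
  intro Ω X L B Y ι _ p N x x' l b y τ h M P c₁ hp hτ hP hM hx'
  have hN : ∀ _ : Ω, (0 : ℝ) < N := by
    intro ω
    have := hτ ω
    have : 0 < N := by omega
    exact_mod_cast this
  have h1 := hC' Ω ι (L × (B × Y)) p N τ (fun ω => (l ω, (b ω, y ω)))
    (fun c j => P c.2.1 c.1 j) (fun c => Real.exp (M c.2.1 c.1))
    (fun ω => h (b ω) (x ω) + c₁) hp hτ
    (by
      intro ω hω
      refine ⟨Real.exp_pos _, ?_⟩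
      obtain ⟨j, hj1, hj2, hj3⟩ := hP ω hω
      refine ⟨j, hj1, hj2, ?_⟩
      intro ω' hω' hc
      have e1 := Prod.ext_iff.mp hc
      have e2 := Prod.ext_iff.mp e1.2
      exact hj3 ω' hω' e2.1 e1.1)
    (by
      intro ω hω
      have h2 := hM ω hω
      have h3 : Real.exp (M (b ω) (l ω)) / (N : ℝ) ^ D =
          Real.exp (M (b ω) (l ω) - D * Real.log N) := by
        rw [Real.exp_sub, mul_comm, Real.exp_mul, Real.exp_log (hN ω), Real.rpow_natCast]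
      simp only
      rw [h3]
      exact Real.exp_le_exp.mpr h2)
  have h4 : Ex p (fun ω => h (b ω) (x' ω)) ≤ Ex p (fun ω => M (b ω) (l ω)) + c₁ := by
    have h5 := Ex_mono hp.nonneg (f := fun ω => h (b ω) (x' ω))
      (g := fun ω => M (b ω) (l ω) + c₁) hx'
    rwa [Ex_add, Ex_const hp.sum_one] at h5
  have h6 : Ex p (fun ω => h (b ω) (x ω) + c₁) = Ex p (fun ω => h (b ω) (x ω)) + c₁ := by
    rw [Ex_add, Ex_const hp.sum_one]
  have h7 : Ex p (fun ω => Real.log (Real.exp (M (b ω) (l ω)))) =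
      Ex p (fun ω => M (b ω) (l ω)) := by
    simp only [Real.log_exp]
  rw [h6] at h1
  simp only at h1
  rw [h7] at h1
  linarith

/-- `I(T; B | W) ≤ I(X; B | W)` if `T` is a function of `X`, in terms of conditional
entropies. -/
lemma bud_dpi {Ω S T U V : Type} [Fintype Ω] {p : Ω → ℝ} (hp : ∀ ω, 0 ≤ p ω) (f : Ω → S)
    (t : S → T) (b : Ω → U) (w : Ω → V) :
    CH p (fun ω => t (f ω)) w - CH p (fun ω => t (f ω)) (fun ω => (b ω, w ω)) ≤
      CH p b w - CH p b (fun ω => (f ω, w ω)) := by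
  have h1 := CH_chain hp b (fun ω => t (f ω)) w
  have h2 := CH_chain hp (fun ω => t (f ω)) b w
  have h3 : CH p (fun ω => (b ω, t (f ω))) w = CH p (fun ω => (t (f ω), b ω)) w := by
    refine CH_congr hp ?_ ?_ (fun _ _ _ _ h => h) (fun _ _ _ _ h => h)
    · intro ω ω' _ _ h
      simp only [Prod.mk.injEq] at h ⊢
      tauto
    · intro ω ω' _ _ h
      simp only [Prod.mk.injEq] at h ⊢
      tauto
  have h4 : CH p b (fun ω => (f ω, w ω)) ≤ CH p b (fun ω => (t (f ω), w ω)) :=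
    CH_mono_cond hp (fun ω ω' _ _ h => by
      simp only [Prod.mk.injEq] at h ⊢
      exact ⟨congrArg t h.1, h.2⟩)
  linarith

theorem bue_thm : BUEStmt := by
  intro Ω X L B Y T _ p n x l b y τ hp h1 h2
  have hp0 := hp.nonneg
  have key : ∀ i ∈ range n, (CH p (fun ω => τ i (x i ω)) (fun ω => (l i ω, y ω)) -
      CH p (fun ω => τ i (x i ω)) (fun ω => (l i ω, (b ω, y ω)))) ≤
      CH p b (fun ω => (x (i + 1) ω, y ω)) - CH p b (fun ω => (x i ω, y ω)) := by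
    intro i hi
    have hi' := Finset.mem_range.mp hi
    have a1 := bud_dpi hp0 (x i) (τ i) b (fun ω => (l i ω, y ω))
    have a2 : CH p (fun ω => τ i (x i ω)) (fun ω => (l i ω, (b ω, y ω))) =
        CH p (fun ω => τ i (x i ω)) (fun ω => (b ω, (l i ω, y ω))) := by
      refine CH_congr hp0 (fun _ _ _ _ h => (Prod.ext_iff.mp h).1)
        (fun _ _ _ _ h => (Prod.ext_iff.mp h).1) ?_ ?_ <;>
      · intro ω ω' _ _ h
        simp only [Prod.mk.injEq] at h ⊢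
        tauto
    have a3 := h1 i hi'
    have a4 := h2 i hi'
    have a5 : CH p b (fun ω => (l i ω, (x (i + 1) ω, y ω))) ≤
        CH p b (fun ω => (x (i + 1) ω, y ω)) :=
      CH_mono_cond hp0 (fun ω ω' _ _ h => (Prod.ext_iff.mp h).2)
    rw [a2]
    linarith
  refine (Finset.sum_le_sum key).trans ?_
  rw [Finset.sum_range_sub (fun i => CH p b (fun ω => (x i ω, y ω)))]
  have := CH_nonneg hp0 b (fun ω => (x 0 ω, y ω))
  linarith

theorem bub_thm : BUBStmt := by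
  intro Ω X L B B' Y T _ p n x l b₀ bn y τ hp h1 h2 h3
  have hp0 := hp.nonneg
  have key : ∀ i ∈ range n, (CH p (fun ω => τ i (x (i + 1) ω)) (fun ω => (l i ω, y ω)) -
      CH p (fun ω => τ i (x (i + 1) ω)) (fun ω => (l i ω, (b₀ ω, (bn ω, y ω))))) ≤
      CH p bn (fun ω => (x i ω, y ω)) - CH p bn (fun ω => (x (i + 1) ω, y ω)) := by
    intro i hi
    have hi' := Finset.mem_range.mp hi
    -- the time is a function of the point
    have a1 := bud_dpi hp0 (x (i + 1)) (τ i) (fun ω => (b₀ ω, bn ω)) (fun ω => (l i ω, y ω))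
    have a2 : CH p (fun ω => τ i (x (i + 1) ω)) (fun ω => (l i ω, (b₀ ω, (bn ω, y ω)))) =
        CH p (fun ω => τ i (x (i + 1) ω)) (fun ω => ((b₀ ω, bn ω), (l i ω, y ω))) := by
      refine CH_congr hp0 (fun _ _ _ _ h => (Prod.ext_iff.mp h).1)
        (fun _ _ _ _ h => (Prod.ext_iff.mp h).1) ?_ ?_ <;>
      · intro ω ω' _ _ h
        simp only [Prod.mk.injEq] at h ⊢
        tauto
    -- `I(x; b₀, bn | l) = I(x; bn | l)`
    have c1 := CH_chain hp0 (fun ω => (b₀ ω, bn ω)) (x (i + 1)) (fun ω => (l i ω, y ω))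
    have c2 := CH_chain hp0 (x (i + 1)) (fun ω => (b₀ ω, bn ω)) (fun ω => (l i ω, y ω))
    have c3 : CH p (fun ω => ((b₀ ω, bn ω), x (i + 1) ω)) (fun ω => (l i ω, y ω)) =
        CH p (fun ω => (x (i + 1) ω, (b₀ ω, bn ω))) (fun ω => (l i ω, y ω)) := by
      refine CH_congr hp0 ?_ ?_ (fun _ _ _ _ h => h) (fun _ _ _ _ h => h) <;>
      · intro ω ω' _ _ h
        simp only [Prod.mk.injEq] at h ⊢
        tauto
    have c4 : CH p (x (i + 1)) (fun ω => ((b₀ ω, bn ω), (l i ω, y ω))) =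
        CH p (x (i + 1)) (fun ω => (l i ω, (b₀ ω, (bn ω, y ω)))) := by
      refine CH_congr hp0 (fun _ _ _ _ h => (Prod.ext_iff.mp h).1)
        (fun _ _ _ _ h => (Prod.ext_iff.mp h).1) ?_ ?_ <;>
      · intro ω ω' _ _ h
        simp only [Prod.mk.injEq] at h ⊢
        tauto
    have c5 := h1 i hi'
    have d1 := CH_chain hp0 bn (x (i + 1)) (fun ω => (l i ω, y ω))
    have d2 := CH_chain hp0 (x (i + 1)) bn (fun ω => (l i ω, y ω))
    have d3 : CH p (fun ω => (bn ω, x (i + 1) ω)) (fun ω => (l i ω, y ω)) =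
        CH p (fun ω => (x (i + 1) ω, bn ω)) (fun ω => (l i ω, y ω)) := by
      refine CH_congr hp0 ?_ ?_ (fun _ _ _ _ h => h) (fun _ _ _ _ h => h) <;>
      · intro ω ω' _ _ h
        simp only [Prod.mk.injEq] at h ⊢
        tauto
    have d4 : CH p (x (i + 1)) (fun ω => (bn ω, (l i ω, y ω))) =
        CH p (x (i + 1)) (fun ω => (l i ω, (bn ω, y ω))) := by
      refine CH_congr hp0 (fun _ _ _ _ h => (Prod.ext_iff.mp h).1)
        (fun _ _ _ _ h => (Prod.ext_iff.mp h).1) ?_ ?_ <;>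
      · intro ω ω' _ _ h
        simp only [Prod.mk.injEq] at h ⊢
        tauto
    have e1 := h2 i hi'
    have e2 := h3 i hi'
    have e3 : CH p bn (fun ω => (x i ω, (l i ω, y ω))) ≤ CH p bn (fun ω => (x i ω, y ω)) :=
      CH_mono_cond hp0 (fun ω ω' _ _ h => by
        simp only [Prod.mk.injEq] at h ⊢
        exact ⟨h.1, h.2.2⟩)
    rw [a2]
    linarith
  refine (Finset.sum_le_sum key).trans ?_
  have hs : ∑ i ∈ range n, (CH p bn (fun ω => (x i ω, y ω)) -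
      CH p bn (fun ω => (x (i + 1) ω, y ω))) =
      CH p bn (fun ω => (x 0 ω, y ω)) - CH p bn (fun ω => (x n ω, y ω)) :=
    Finset.sum_range_sub' (fun i => CH p bn (fun ω => (x i ω, y ω))) n
  rw [hs]
  have := CH_nonneg hp0 bn (fun ω => (x n ω, y ω))
  linarith

theorem bud_thm (hSTP : STPStmt) (hBUE : BUEStmt) : BUDStmt := by
  intro D
  obtain ⟨C, hC, hC'⟩ := hSTP D
  refine ⟨C, hC, ?_⟩
  intro Ω X L B Y ι _ p N n x l b y τ h M P c₁ e hp h1 h2 h3 h4 h5 h6 h7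
  have step : ∀ i ∈ range n, Ex p (fun ω => h (b ω) (x (i + 1) ω)) -
      Ex p (fun ω => h (b ω) (x i ω)) ≤
      2 * D * (CH p (fun ω => τ (x i ω)) (fun ω => (l i ω, y ω)) -
        CH p (fun ω => τ (x i ω)) (fun ω => (l i ω, (b ω, y ω)))) +
        (2 * D * (e + C) + 2 * c₁) := by
    intro i hi
    have hi' := Finset.mem_range.mp hi
    have a1 := hC' Ω X L B Y ι p N (x i) (x (i + 1)) (l i) b y (fun ω => τ (x i ω)) h M P c₁ hp
      (h1 i hi') (h2 i hi') (h3 i hi') (h4 i hi')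
    have a2 := h7 i hi'
    have a3 : (0 : ℝ) ≤ 2 * D := by positivity
    have a4 := mul_le_mul_of_nonneg_left a2 a3
    linarith
  have hs := Finset.sum_le_sum step
  rw [Finset.sum_range_sub (fun i => Ex p (fun ω => h (b ω) (x i ω))), Finset.sum_add_distrib,
    ← Finset.mul_sum, Finset.sum_const, Finset.card_range, nsmul_eq_mul] at hs
  have hb := hBUE Ω X L B Y ℕ p n x l b y (fun _ => τ) hp h5 h6
  have a3 : (0 : ℝ) ≤ 2 * D := by positivity
  have hb' := mul_le_mul_of_nonneg_left hb a3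
  linarith

theorem bup_thm (hSTP : STPStmt) (hBUB : BUBStmt) : BUPStmt := by
  intro D
  obtain ⟨C, hC, hC'⟩ := hSTP D
  refine ⟨C, hC, ?_⟩
  intro Ω X L B B' Bβ Y ι _ p N n x l b₀ bn β y τ h M P c₁ e hp h1 h2 h3 h4 h45 h5 h6 h65 h7
  have step : ∀ i ∈ range n, Ex p (fun ω => h (β ω) (x i ω)) -
      Ex p (fun ω => h (β ω) (x (i + 1) ω)) ≤
      2 * D * (CH p (fun ω => τ (x (i + 1) ω)) (fun ω => (l i ω, y ω)) -
        CH p (fun ω => τ (x (i + 1) ω)) (fun ω => (l i ω, (b₀ ω, (bn ω, y ω))))) +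
        (2 * D * (e + C) + 2 * c₁) := by
    intro i hi
    have hi' := Finset.mem_range.mp hi
    have a1 := hC' Ω X L Bβ Y ι p N (x (i + 1)) (x i) (l i) β y (fun ω => τ (x (i + 1) ω)) h M P
      c₁ hp (h1 i hi') (h2 i hi') (h3 i hi') (h4 i hi')
    have a2 := h7 i hi'
    have a5 := h45 i hi'
    have a3 : (0 : ℝ) ≤ 2 * D := by positivity
    have a4 := mul_le_mul_of_nonneg_left a2 a3
    have a6 := mul_le_mul_of_nonneg_left a5 a3
    linarith
  have hs := Finset.sum_le_sum step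
  rw [Finset.sum_range_sub' (fun i => Ex p (fun ω => h (β ω) (x i ω))),
    Finset.sum_add_distrib, ← Finset.mul_sum, Finset.sum_const, Finset.card_range,
    nsmul_eq_mul] at hs
  have hb := hBUB Ω X L B B' Y ℕ p n x l b₀ bn y (fun _ => τ) hp h5 h6 h65
  have a3 : (0 : ℝ) ≤ 2 * D := by positivity
  have hb' := mul_le_mul_of_nonneg_left hb a3
  linarith

end Pool.KAL
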