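import Pool.Agent.H56.KAL.Stmts2

/-!
# Remez inequality in the mean, conditional form, for a maximum of polynomials

`c` is a context, `P (c ω) j` are polynomials and `T ω / N` is a time. If `g ω` is a logarithmic
upper bound for all the values `|P (c ω) j|` at the time `T ω / N` and for the trivial bound
`S (c ω) / N ^ D`, then the mean of `g` is at least the mean of `log (S (c ω))` up to `2 D` times
the deficit of the time given the context.
-/

set_option autoImplicit false

namespace Pool.KAL

open Finset Real MeasureTheory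
open Pool.Agent.H49.Ent Pool.Agent.H32.Dense Pool.STK Pool.KAF

/-- Remez inequality in the mean given a context, for a family of polynomials. -/
def RIXStmt : Prop :=
  ∀ D : ℕ, ∃ C : ℝ, 0 ≤ C ∧ ∀ (Ω ι κ : Type) [Fintype Ω] (p : Ω → ℝ) (N : ℕ) (T : Ω → ℕ)
    (c : Ω → κ) (P : κ → ι → Polynomial ℝ) (S : κ → ℝ) (g : Ω → ℝ), IsLaw p →
    (∀ ω, T ω < N) →
    (∀ ω, 0 < p ω → 0 < S (c ω) ∧ ∃ j, (P (c ω) j).natDegree ≤ D ∧
      (∃ s ∈ Set.Icc (0 : ℝ) 1, S (c ω) ≤ |(P (c ω) j).eval s|) ∧
      ∀ ω', 0 < p ω' → c ω' = c ω →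
        |(P (c ω) j).eval ((T ω' : ℝ) / N)| ≤ Real.exp (g ω')) →
    (∀ ω, 0 < p ω → S (c ω) / N ^ D ≤ Real.exp (g ω)) →
    Ex p (fun ω => Real.log (S (c ω))) - 2 * D * ((Real.log N - CH p T c) + C) ≤ Ex p g

/-- Means as averages of means under the conditioned laws. -/
lemma rix_ex {Ω κ : Type} [Fintype Ω] [DecidableEq κ] (p : Ω → ℝ) (hp : ∀ ω, 0 ≤ p ω)
    (c : Ω → κ) (f : Ω → ℝ) :
    Ex p f = ∑ z ∈ univ.image c, law p c z * Ex (cond p c z) f := by
  classical
  unfold Ex
  simp_rw [Finset.mul_sum]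
  rw [Finset.sum_comm]
  refine Finset.sum_congr rfl fun ω _ => ?_
  rw [Finset.sum_eq_single (c ω)]
  · by_cases h0 : p ω = 0
    · simp [Pool.Agent.H49.Ent.cond, h0]
    · have hω : 0 < p ω := lt_of_le_of_ne (hp ω) (Ne.symm h0)
      have hl := law_pos hp c hω
      unfold Pool.Agent.H49.Ent.cond
      rw [if_pos rfl]
      field_simp
  · intro z _ hz
    unfold Pool.Agent.H49.Ent.cond
    rw [if_neg (Ne.symm hz)]
    simp
  · intro h
    exact absurd (Finset.mem_image_of_mem c (Finset.mem_univ ω)) h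

theorem rix_thm (hRIM : RIMStmt) : RIXStmt := by
  classical
  intro D
  obtain ⟨C, hC, hC'⟩ := hRIM D
  refine ⟨C, hC, ?_⟩
  intro Ω ι κ _ p N T c P S g hp hT hP hS
  have hp0 := hp.nonneg
  -- the inequality under each conditioned law
  have key : ∀ z ∈ univ.image c, law p c z * (Ex (cond p c z) (fun ω => Real.log (S (c ω))) -
      2 * D * ((Real.log N - H (cond p c z) T) + C)) ≤ law p c z * Ex (cond p c z) g := by
    intro z _
    rcases (law_nonneg hp0 c z).eq_or_lt with h0 | h0
    · rw [← h0]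
      simp
    · refine mul_le_mul_of_nonneg_left ?_ h0.le
      obtain ⟨ω₀, hω₀, rfl⟩ : ∃ ω, 0 < p ω ∧ c ω = z := by
        by_contra hcon
        push Not at hcon
        have : law p c z = 0 := by
          unfold law
          refine Finset.sum_eq_zero fun ω _ => ?_
          split_ifs with h
          · exact le_antisymm (not_lt.mp fun h' => hcon ω h' h) (hp0 ω)
          · rfl
        rw [this] at h0
        exact lt_irrefl _ h0
      obtain ⟨hS0, j, hdeg, hs, hj⟩ := hP ω₀ hω₀
      have hlaw : IsLaw (cond p c (c ω₀)) :=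
        ⟨fun ω => cond_nonneg hp0 c _ ω, sum_cond p c h0.ne'⟩
      have h1 := hC' Ω (cond p c (c ω₀)) N T (P (c ω₀) j) (S (c ω₀)) hlaw hT hdeg hS0 hs
      have h2 : Ex (cond p c (c ω₀)) (fun ω => Real.log (S (c ω))) = Real.log (S (c ω₀)) := by
        unfold Ex
        have h3 : ∀ ω, cond p c (c ω₀) ω * Real.log (S (c ω)) =
            cond p c (c ω₀) ω * Real.log (S (c ω₀)) := by
          intro ω
          by_cases h : c ω = c ω₀
          · rw [h]
          · unfold Pool.Agent.H49.Ent.cond
            rw [if_neg h]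
            simp
        rw [Finset.sum_congr rfl fun ω _ => h3 ω, ← Finset.sum_mul, hlaw.sum_one, one_mul]
      rw [h2]
      refine h1.trans (Ex_mono hlaw.nonneg fun ω hω => ?_)
      obtain ⟨hω1, hω2⟩ := (cond_pos_iff hp0 c (c ω₀) ω).mp hω
      have h4 : max |(P (c ω₀) j).eval ((T ω : ℝ) / N)| (S (c ω₀) / N ^ D) ≤
          Real.exp (g ω) := by
        refine max_le (hj ω hω1 hω2) ?_
        have := hS ω hω1
        rwa [hω2] at this
      have hN : (0 : ℝ) < N := by
        have := hT ω
        have : 0 < N := by omega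
        exact_mod_cast this
      have h5 : 0 < max |(P (c ω₀) j).eval ((T ω : ℝ) / N)| (S (c ω₀) / N ^ D) :=
        lt_of_lt_of_le (by positivity) (le_max_right _ _)
      calc Real.log (max |(P (c ω₀) j).eval ((T ω : ℝ) / N)| (S (c ω₀) / N ^ D))
          ≤ Real.log (Real.exp (g ω)) := Real.log_le_log h5 h4
        _ = g ω := Real.log_exp _
  have hsum := Finset.sum_le_sum key
  rw [← rix_ex p hp0 c g] at hsum
  refine le_trans (le_of_eq ?_) hsum
  have e1 : ∀ z ∈ univ.image c, law p c z * (Ex (cond p c z) (fun ω => Real.log (S (c ω))) -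
      2 * D * ((Real.log N - H (cond p c z) T) + C)) =
      law p c z * Ex (cond p c z) (fun ω => Real.log (S (c ω))) -
        2 * D * ((Real.log N + C) * law p c z - law p c z * H (cond p c z) T) := by
    intro z _
    ring
  rw [Finset.sum_congr rfl e1, Finset.sum_sub_distrib, ← Finset.mul_sum, Finset.sum_sub_distrib,
    ← Finset.mul_sum, sum_law, hp.sum_one, ← CH_eq_sum hp0, ← rix_ex p hp0 c]
  ring

end Pool.KAL
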