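import Pool.Agent.H70.KAL.TI

/-!
# The small invariances of a plane law lie on one line

If the law of a block in the plane is nearly invariant under two small translations which are not
nearly parallel, then the block is full.
-/

set_option autoImplicit false

namespace Pool.KAL

open Finset Real
open Pool.Agent.H49.Ent Pool.Agent.H32.Dense Pool.STK Pool.KAF

/-- The norm of a vector of the plane. -/
def nrm (x : ℤ × ℤ) : ℤ := max |x.1| |x.2|

/-- The determinant of two vectors of the plane. -/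
def dt (x y : ℤ × ℤ) : ℤ := x.1 * y.2 - x.2 * y.1

/-- SIN. The small invariances of a block in the plane which is not full lie on one line. -/
def SINStmt : Prop :=
  ∀ (Ω U : Type) [Fintype Ω] (p : Ω → ℝ) (X : Ω → ℤ × ℤ) (V : Ω → U) (x y : ℤ × ℤ) (a i : ℕ)
    (e c : ℝ), IsLaw p → 0 < a → 0 ≤ e → 0 < c → c ≤ 1 → 64 / c ≤ i → nrm x ≤ a →
    nrm y ≤ nrm x → TIV p X V x e → TIV p X V y e →
    CH p (fun ω => ((X ω).1 / (a : ℤ), (X ω).2 / (a : ℤ)))
      (fun ω => (((X ω).1 / ((2 ^ i * a : ℕ) : ℤ), (X ω).2 / ((2 ^ i * a : ℕ) : ℤ)), V ω)) ≤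
      (2 - c) * i * Real.log 2 →
    (nrm x : ℝ) ≤ 64 / c * e * (2 ^ i * a) ∨
      |(dt x y : ℝ)| ≤ 64 / c * e * (2 ^ i * a) * nrm x

namespace SIN

/-- The averaging lemma. -/
lemma avg_le {Ω T T' ι κ : Type} [Fintype Ω] (p : Ω → ℝ) (hp : IsLaw p) (Y : Ω → T) (q : T → T')
    (J : Finset ι) (Z : ι → Ω → T) (E : ℝ) (hJ : J.Nonempty)
    (hE : ∀ j ∈ J, ∀ F : Finset T, Pr p {ω | Y ω ∈ F} ≤ Pr p {ω | Z j ω ∈ F} + E)
    (K : Finset κ) (ψ : κ → T' → T') (hψ : ∀ k ∈ K, Function.Injective (ψ k)) (N : ℝ) (hN : 0 < N)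
    (hup : ∀ s : T, ∑ j ∈ J, law p (Z j) s ≤
      N * ∑ k ∈ K, law p (fun ω => q (Y ω)) (ψ k (q s)))
    (hlog : 2 * N ≤ J.card) :
    (1 - 2 * E) * Real.log (J.card / (2 * N)) - K.card ≤ H p Y - H p (fun ω => q (Y ω)) := by
  classical
  have hM0 : (0 : ℝ) < J.card := by exact_mod_cast hJ.card_pos
  have hL : 0 ≤ Real.log ((J.card : ℝ) / (2 * N)) := Real.log_nonneg (by
    rw [le_div_iff₀ (by positivity)]
    linarith)
  set Q : Ω → T' := fun ω => q (Y ω) with hQ
  set nu : T → ℝ := fun s => (∑ j ∈ J, law p (Z j) s) / J.card with hnu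
  set F : Finset T := univ.image Y with hF
  set Bad : Finset T := F.filter fun s => 2 * nu s < law p Y s with hBad
  have hj : ∀ j ∈ J, ∑ s ∈ Bad, law p Y s - E ≤ ∑ s ∈ Bad, law p (Z j) s := by
    intro j hj
    have h1 := hE j hj Bad
    rw [TI.Pr_eq_sum_law, TI.Pr_eq_sum_law] at h1
    linarith
  have hbad : ∑ s ∈ Bad, law p Y s ≤ 2 * E := by
    have h1 : ∑ s ∈ Bad, nu s = (∑ j ∈ J, ∑ s ∈ Bad, law p (Z j) s) / J.card := by
      simp only [hnu]
      rw [← Finset.sum_div, Finset.sum_comm]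
    have h2 : (J.card : ℝ) * (∑ s ∈ Bad, law p Y s - E) ≤ ∑ j ∈ J, ∑ s ∈ Bad, law p (Z j) s := by
      have := Finset.card_nsmul_le_sum J _ _ hj
      rwa [nsmul_eq_mul] at this
    have h3 : ∑ s ∈ Bad, law p Y s - E ≤ ∑ s ∈ Bad, nu s := by
      rw [h1, le_div_iff₀ hM0]
      linarith
    have h4 : ∑ s ∈ Bad, 2 * nu s ≤ ∑ s ∈ Bad, law p Y s :=
      Finset.sum_le_sum fun s hs => (mem_filter.1 hs).2.le
    rw [← Finset.mul_sum] at h4
    linarith
  have hr : ∀ k ∈ K, ∑ ω, p ω * (law p Q (ψ k (Q ω)) / law p Q (Q ω)) ≤ 1 := fun k hk =>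
    TI.ratio_le p hp Q (ψ k) (hψ k hk)
  have hterm : ∀ ω, p ω * ((if Y ω ∈ Bad then 0 else Real.log ((J.card : ℝ) / (2 * N))) -
      ∑ k ∈ K, law p Q (ψ k (Q ω)) / law p Q (Q ω)) ≤
      -(p ω * Real.log (law p Y (Y ω))) + p ω * Real.log (law p Q (Q ω)) := by
    intro ω
    rcases (hp.nonneg ω).eq_or_lt with h0 | h0
    · rw [← h0]
      simp
    have u0 : 0 < law p Y (Y ω) := law_pos hp.nonneg Y h0
    have q0 : 0 < law p Q (Q ω) := law_pos hp.nonneg Q h0
    set R : ℝ := ∑ k ∈ K, law p Q (ψ k (Q ω)) / law p Q (Q ω) with hR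
    have hR0 : 0 ≤ R := Finset.sum_nonneg fun k _ =>
      div_nonneg (law_nonneg hp.nonneg Q _) q0.le
    rw [← mul_neg, ← mul_add]
    refine mul_le_mul_of_nonneg_left ?_ h0.le
    by_cases hb : Y ω ∈ Bad
    · rw [if_pos hb]
      have huq : law p Y (Y ω) ≤ law p Q (Q ω) := by
        refine law_mono_of_det hp.nonneg ?_ h0
        intro ω' ω'' _ _ h
        simp only [hQ, h]
      have := Real.log_le_log u0 huq
      linarith
    · rw [if_neg hb]
      have hle : law p Y (Y ω) ≤ 2 * nu (Y ω) := by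
        by_contra hcon
        push Not at hcon
        exact hb (mem_filter.2 ⟨mem_image_of_mem _ (mem_univ _), hcon⟩)
      have h1 := hup (Y ω)
      have h2 : ∑ k ∈ K, law p (fun ω => q (Y ω)) (ψ k (q (Y ω))) = law p Q (Q ω) * R := by
        rw [hR, Finset.mul_sum]
        refine Finset.sum_congr rfl fun k _ => ?_
        rw [mul_div_cancel₀ _ q0.ne']
      rw [h2] at h1
      have h3 : law p Y (Y ω) ≤ (law p Q (Q ω) * R) / (J.card / (2 * N)) := by
        rw [le_div_iff₀ (by positivity)]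
        have h4 : nu (Y ω) * J.card = ∑ j ∈ J, law p (Z j) (Y ω) := by
          simp only [hnu]
          rw [div_mul_cancel₀ _ hM0.ne']
        have h5 : law p Y (Y ω) * (J.card / (2 * N)) ≤ 2 * nu (Y ω) * (J.card / (2 * N)) :=
          mul_le_mul_of_nonneg_right hle (by positivity)
        have h6 : 2 * nu (Y ω) * (J.card / (2 * N)) = (nu (Y ω) * J.card) / N := by
          field_simp
        rw [h6, h4] at h5
        refine h5.trans ?_
        rw [div_le_iff₀ hN]
        linarith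
      have hRp : 0 < R := by
        rcases hR0.eq_or_lt with h | h
        · rw [← h] at h3
          simp at h3
          linarith
        · exact h
      have h4 := Real.log_le_log u0 h3
      rw [Real.log_div (by positivity) (by positivity),
        Real.log_mul q0.ne' hRp.ne'] at h4
      have h5 : Real.log R ≤ R := by
        have := Real.log_le_sub_one_of_pos hRp
        linarith
      linarith
  have hsum := Finset.sum_le_sum fun ω (_ : ω ∈ univ) => hterm ω
  have e1 : ∑ ω, (-(p ω * Real.log (law p Y (Y ω))) + p ω * Real.log (law p Q (Q ω))) =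
      H p Y - H p Q := by
    unfold H
    rw [Finset.sum_add_distrib, Finset.sum_neg_distrib]
    ring
  rw [e1] at hsum
  refine le_trans ?_ hsum
  simp only [mul_sub, Finset.sum_sub_distrib]
  have e2 : ∑ ω, p ω * (if Y ω ∈ Bad then 0 else Real.log ((J.card : ℝ) / (2 * N))) =
      (1 - ∑ s ∈ Bad, law p Y s) * Real.log ((J.card : ℝ) / (2 * N)) := by
    rw [← TI.Pr_eq_sum_law, TI.Pr_eq, ← hp.sum_one, ← Finset.sum_sub_distrib, Finset.sum_mul]
    refine Finset.sum_congr rfl fun ω _ => ?_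
    by_cases h : Y ω ∈ Bad
    · simp [h]
    · simp [h]
  have e3 : ∑ ω, p ω * ∑ k ∈ K, law p Q (ψ k (Q ω)) / law p Q (Q ω) ≤ K.card := by
    simp only [Finset.mul_sum]
    rw [Finset.sum_comm]
    have := Finset.sum_le_card_nsmul K _ 1 hr
    rwa [nsmul_eq_mul, mul_one] at this
  rw [e2]
  have h6 : (1 - 2 * E) * Real.log ((J.card : ℝ) / (2 * N)) ≤
      (1 - ∑ s ∈ Bad, law p Y s) * Real.log ((J.card : ℝ) / (2 * N)) :=
    mul_le_mul_of_nonneg_right (by linarith) hL
  linarith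

/-- A set of integers of small diameter is small. -/
lemma card_le_of_diam (A : Finset ℕ) (D L : ℕ) (hD : 0 < D)
    (h : ∀ k ∈ A, ∀ k' ∈ A, k' ≤ k → (k - k') * D ≤ L) : A.card ≤ L / D + 1 := by
  rcases A.eq_empty_or_nonempty with rfl | hA
  · simp
  · have h1 : A ⊆ Icc (A.min' hA) (A.max' hA) := fun k hk =>
      mem_Icc.2 ⟨A.min'_le k hk, A.le_max' k hk⟩
    have h2 := card_le_card h1
    rw [Nat.card_Icc] at h2
    have h3 := h _ (A.max'_mem hA) _ (A.min'_mem hA) (A.min'_le _ (A.max'_mem hA))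
    have h4 : A.max' hA - A.min' hA ≤ L / D := (Nat.le_div_iff_mul_le hD).2 h3
    omega

/-- Integer multiples of an invariance. -/
lemma tiv_zsmul {Ω U : Type} [Fintype Ω] {p : Ω → ℝ} {X : Ω → ℤ × ℤ} {V : Ω → U} {x : ℤ × ℤ}
    {e : ℝ} (h : TIV p X V x e) (z : ℤ) : TIV p X V (z • x) (z.natAbs * e) := by
  rcases le_total 0 z with hz | hz
  · have h1 := (ti2_thm Ω U (ℤ × ℤ) p X V x x e e h h).2.2 z.natAbs
    have h2 : (z.natAbs : ℕ) • x = z • x := by
      rw [← natCast_zsmul, Int.natAbs_of_nonneg hz]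
    rwa [h2] at h1
  · have h0 := (ti2_thm Ω U (ℤ × ℤ) p X V x x e e h h).2.1
    have h1 := (ti2_thm Ω U (ℤ × ℤ) p X V (-x) (-x) e e h0 h0).2.2 z.natAbs
    have h2 : (z.natAbs : ℕ) • (-x) = z • x := by
      rw [← natCast_zsmul, Int.ofNat_natAbs_of_nonpos hz, smul_neg, neg_smul, neg_neg]
    rwa [h2] at h1

/-- The count of the translates in one cell. -/
lemma count (S : Finset (ℕ × ℕ)) (α a D : ℕ) (β : ℤ) (hα : 0 < α)
    (hD : 0 < D) (hβ : |β| ≤ α) (u v : ℕ × ℕ → ℤ) (φ₀ : ℤ)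
    (hk : ∀ z ∈ S, (α : ℤ) * v z - β * u z = φ₀ + (z.1 : ℤ) * D)
    (hj : ∀ z ∈ S, ∀ z' ∈ S, z.1 = z'.1 → u z - u z' = ((z.2 : ℤ) - z'.2) * α)
    (hu : ∀ z ∈ S, ∀ z' ∈ S, |u z - u z'| ≤ a) (hv : ∀ z ∈ S, ∀ z' ∈ S, |v z - v z'| ≤ a) :
    S.card ≤ (a / α + 1) * ((2 * α * a) / D + 1) := by
  have h1 : (S.image Prod.fst).card ≤ (2 * α * a) / D + 1 := by
    refine card_le_of_diam _ D (2 * α * a) hD ?_
    intro k hk0 k' hk0' hle
    obtain ⟨z, hz, rfl⟩ := mem_image.1 hk0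
    obtain ⟨z', hz', rfl⟩ := mem_image.1 hk0'
    have e1 := hk z hz
    have e2 := hk z' hz'
    have e3 : ((z.1 : ℤ) - z'.1) * D = α * (v z - v z') - β * (u z - u z') := by
      linear_combination e2 - e1
    have e4 : (α : ℤ) * (v z - v z') ≤ α * a :=
      mul_le_mul_of_nonneg_left ((le_abs_self _).trans (hv z hz z' hz')) (by positivity)
    have e5 : -(β * (u z - u z')) ≤ α * a := by
      refine (neg_le_abs _).trans ?_
      rw [abs_mul]
      exact mul_le_mul hβ (hu z hz z' hz') (abs_nonneg _) (by positivity)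
    have e6 : (((z.1 - z'.1) * D : ℕ) : ℤ) ≤ ((2 * α * a : ℕ) : ℤ) := by
      rw [Nat.cast_mul, Nat.cast_sub hle]
      push_cast
      linarith
    exact_mod_cast e6
  have h2 : ∀ k ∈ S.image Prod.fst, (S.filter fun z => z.1 = k).card ≤ a / α + 1 := by
    intro k _
    have h3 : ((S.filter fun z => z.1 = k).image Prod.snd).card =
        (S.filter fun z => z.1 = k).card := by
      refine card_image_of_injOn ?_
      intro z hz z' hz' h
      have hz1 := (mem_filter.1 (mem_coe.1 hz)).2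
      have hz2 := (mem_filter.1 (mem_coe.1 hz')).2
      exact Prod.ext (hz1.trans hz2.symm) h
    rw [← h3]
    refine card_le_of_diam _ α a hα ?_
    intro j hj0 j' hj0' hle
    obtain ⟨z, hz, rfl⟩ := mem_image.1 hj0
    obtain ⟨z', hz', rfl⟩ := mem_image.1 hj0'
    have m1 := mem_filter.1 hz
    have m2 := mem_filter.1 hz'
    have e1 := hj z m1.1 z' m2.1 (m1.2.trans m2.2.symm)
    have e2 := (le_abs_self _).trans (hu z m1.1 z' m2.1)
    have e6 : (((z.2 - z'.2) * α : ℕ) : ℤ) ≤ (a : ℤ) := by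
      rw [Nat.cast_mul, Nat.cast_sub hle]
      linarith
    exact_mod_cast e6
  have h3 := Finset.card_le_mul_card_image_of_maps_to (s := S) (t := S.image Prod.fst)
    (f := Prod.fst) (fun z hz => mem_image_of_mem _ hz) (a / α + 1) h2
  exact h3.trans (Nat.mul_le_mul_left _ h1)

set_option maxHeartbeats 2000000 in
/-- Two invariances which are not parallel make the block full. -/
lemma full2 {Ω U : Type} [Fintype Ω] (p : Ω → ℝ) (hp : IsLaw p) (X : Ω → ℤ × ℤ) (V : Ω → U)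
    (α a c D : ℕ) (β γ δ : ℤ) (e : ℝ) (he : 0 ≤ e) (hα : 0 < α) (hαa : α ≤ a) (hc : 8 ≤ c)
    (hD : 0 < D) (hβ : |β| ≤ α) (hγ : |γ| ≤ α) (hδ : |δ| ≤ α)
    (hdet : (D : ℤ) = α * δ - β * γ) (hx : TIV p X V ((α : ℤ), β) e) (hy : TIV p X V (γ, δ) e)
    (hE : 2 * ((2 * ((a * c : ℕ) * α / D : ℝ) + (a * c : ℕ) / α) * e) ≤ 1) :
    (1 - 2 * ((2 * ((a * c : ℕ) * α / D : ℝ) + (a * c : ℕ) / α) * e)) *
        Real.log ((c : ℝ) ^ 2 / 64) - 8 ≤
      CH p (fun ω => ((X ω).1 / (a : ℤ), (X ω).2 / (a : ℤ)))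
        (fun ω => (((X ω).1 / ((a * c : ℕ) : ℤ), (X ω).2 / ((a * c : ℕ) : ℤ)), V ω)) := by
  classical
  have ha : 0 < a := lt_of_lt_of_le hα hαa
  have hB : 0 < a * c := Nat.mul_pos ha (by omega)
  set B : ℕ := a * c with hBdef
  have haZ : (0 : ℤ) < a := by exact_mod_cast ha
  have hBZ : (0 : ℤ) < B := by exact_mod_cast hB
  have hαZ : (0 : ℤ) < α := by exact_mod_cast hα
  have hDZ : (0 : ℤ) < D := by exact_mod_cast hD
  have haR : (0 : ℝ) < a := by exact_mod_cast ha
  have hαR : (0 : ℝ) < α := by exact_mod_cast hα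
  have hDR : (0 : ℝ) < D := by exact_mod_cast hD
  have hBR : (0 : ℝ) < B := by exact_mod_cast hB
  have hcR : (8 : ℝ) ≤ c := by exact_mod_cast hc
  have hαaR : (α : ℝ) ≤ a := by exact_mod_cast hαa
  have hBe : (B : ℝ) = a * c := by rw [hBdef]; push_cast; ring
  have hD2 : D ≤ 2 * α * α := by
    have h1 : (α : ℤ) * δ ≤ α * α :=
      mul_le_mul_of_nonneg_left ((le_abs_self _).trans hδ) (by positivity)
    have h2 : -(β * γ) ≤ α * α := by
      refine (neg_le_abs _).trans ?_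
      rw [abs_mul]
      exact mul_le_mul hβ hγ (abs_nonneg _) (by positivity)
    have h3 : (D : ℤ) ≤ ((2 * α * α : ℕ) : ℤ) := by
      rw [hdet]
      push_cast
      linarith
    exact_mod_cast h3
  have hD2R : (D : ℝ) ≤ 2 * α * α := by exact_mod_cast hD2
  -- the index set
  set K2 : ℕ := B * α / D with hK2
  set M1 : ℕ := B / α with hM1
  have hBα : 8 * α ≤ B := by
    calc 8 * α ≤ 8 * a := Nat.mul_le_mul_left _ hαa
      _ ≤ c * a := Nat.mul_le_mul_right _ hc
      _ = B := by rw [hBdef, Nat.mul_comm]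
  have hBαR : 8 * (α : ℝ) ≤ B := by exact_mod_cast hBα
  have hM1l : (B : ℝ) / (2 * α) ≤ M1 := by
    have h1 : (B : ℝ) / α < M1 + 1 := by
      rw [div_lt_iff₀ hαR]
      have h2 : B < (M1 + 1) * α := by
        rw [hM1]
        exact Nat.lt_mul_of_div_lt (Nat.lt_succ_self _) hα
      exact_mod_cast h2
    have h3 : (B : ℝ) / (2 * α) = (B : ℝ) / α / 2 := by ring
    have h4 : (8 : ℝ) ≤ (B : ℝ) / α := by
      rw [le_div_iff₀ hαR]
      exact hBαR
    rw [h3]
    linarith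
  have hM1u : (M1 : ℝ) ≤ B / α := Nat.cast_div_le
  have hK2l : (B : ℝ) * α / (2 * D) ≤ K2 := by
    have h1 : (B : ℝ) * α / D < K2 + 1 := by
      rw [div_lt_iff₀ hDR]
      have h2 : B * α < (K2 + 1) * D := by
        rw [hK2]
        exact Nat.lt_mul_of_div_lt (Nat.lt_succ_self _) hD
      exact_mod_cast h2
    have h3 : (B : ℝ) * α / (2 * D) = (B : ℝ) * α / D / 2 := by ring
    have h4 : (2 : ℝ) ≤ (B : ℝ) * α / D := by
      rw [le_div_iff₀ hDR]
      nlinarith
    rw [h3]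
    linarith
  have hK2u : (K2 : ℝ) ≤ B * α / D := by
    have := @Nat.cast_div_le ℝ _ _ _ (B * α) D
    push_cast at this
    exact this
  set J : Finset (ℕ × ℕ) := range K2 ×ˢ range M1 with hJ
  have hJc : (J.card : ℝ) = K2 * M1 := by
    rw [hJ, card_product, card_range, card_range]
    push_cast
    ring
  set sh : ℕ → ℤ := fun k => (k : ℤ) * γ / (α : ℤ) with hsh
  have hsh1 : ∀ k : ℕ, |sh k| ≤ k := by
    intro k
    rw [abs_le]
    have h1 : (k : ℤ) * γ ≤ k * α :=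
      mul_le_mul_of_nonneg_left ((le_abs_self _).trans hγ) (by positivity)
    have h2 : -((k : ℤ) * α) ≤ k * γ := by
      have := mul_le_mul_of_nonneg_left ((neg_le_abs _).trans hγ) (show (0 : ℤ) ≤ k by positivity)
      linarith
    constructor
    · rw [Int.le_ediv_iff_mul_le hαZ]
      linarith
    · exact Int.ediv_le_of_le_mul hαZ (by linarith)
  -- the displacement
  set d : ℕ × ℕ → ℤ × ℤ := fun z =>
    (((z.1 : ℕ) : ℤ) * γ + ((z.2 : ℤ) - sh z.1) * α,
      ((z.1 : ℕ) : ℤ) * δ + ((z.2 : ℤ) - sh z.1) * β) with hd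
  have hd0 : ∀ z, (α : ℤ) * (d z).2 - β * (d z).1 = (z.1 : ℤ) * D := by
    intro z
    simp only [hd]
    rw [hdet]
    ring
  have hd1 : ∀ z ∈ J, 0 ≤ (d z).1 ∧ (d z).1 ≤ B := by
    intro z hz
    have hz2 : z.2 < M1 := mem_range.1 (mem_product.1 hz).2
    have h1 : (d z).1 = (z.1 : ℤ) * γ % α + z.2 * α := by
      simp only [hd, hsh]
      have := Int.emod_add_mul_ediv ((z.1 : ℤ) * γ) α
      linear_combination -this
    have h2 := Int.emod_nonneg ((z.1 : ℤ) * γ) hαZ.ne'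
    have h3 := Int.emod_lt_of_pos ((z.1 : ℤ) * γ) hαZ
    have h4 : (z.2 + 1) * α ≤ B := by
      have : z.2 + 1 ≤ B / α := hz2
      exact (Nat.le_div_iff_mul_le hα).1 this
    have h5 : ((z.2 : ℤ) + 1) * α ≤ B := by exact_mod_cast h4
    rw [h1]
    constructor
    · positivity
    · linarith
  have hd2 : ∀ z ∈ J, -(B : ℤ) ≤ (d z).2 ∧ (d z).2 ≤ 2 * B := by
    intro z hz
    have hz1 : z.1 < K2 := mem_range.1 (mem_product.1 hz).1
    have h0 := hd0 z
    have h1 := hd1 z hz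
    have h2 : |β * (d z).1| ≤ α * B := by
      rw [abs_mul, abs_of_nonneg h1.1]
      exact mul_le_mul hβ h1.2 h1.1 (by positivity)
    have h3 : z.1 * D ≤ B * α := by
      have : z.1 ≤ B * α / D := hz1.le
      exact (Nat.le_div_iff_mul_le hD).1 this
    have h4 : (z.1 : ℤ) * D ≤ B * α := by exact_mod_cast h3
    have h5 : (0 : ℤ) ≤ (z.1 : ℤ) * D := by positivity
    rw [abs_le] at h2
    constructor
    · refine le_of_mul_le_mul_left ?_ hαZ
      linarith
    · refine le_of_mul_le_mul_left ?_ hαZ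
      linarith
  -- the maps
  set Y : Ω → (ℤ × ℤ) × U := fun ω => (((X ω).1 / (a : ℤ), (X ω).2 / (a : ℤ)), V ω) with hY
  set Z : ℕ × ℕ → Ω → (ℤ × ℤ) × U := fun z ω =>
    ((((X ω).1 + (d z).1) / (a : ℤ), ((X ω).2 + (d z).2) / (a : ℤ)), V ω) with hZ
  set q : (ℤ × ℤ) × U → (ℤ × ℤ) × U := fun s => ((s.1.1 / (c : ℤ), s.1.2 / (c : ℤ)), s.2) with hq
  have hdiv : ∀ z : ℤ, z / (a : ℤ) / (c : ℤ) = z / (B : ℤ) := by
    intro z
    rw [Int.ediv_ediv_of_nonneg haZ.le, hBdef]
    push_cast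
    rfl
  have hqY : ∀ ω, q (Y ω) = (((X ω).1 / (B : ℤ), (X ω).2 / (B : ℤ)), V ω) := by
    intro ω
    simp only [hq, hY, hdiv]
  set ψ : ℕ × ℕ → (ℤ × ℤ) × U → (ℤ × ℤ) × U := fun κ s =>
    ((s.1.1 - κ.1, s.1.2 + 1 - κ.2), s.2) with hψ
  set N : ℝ := ((a / α + 1 : ℕ) : ℝ) * ((2 * α * a / D + 1 : ℕ) : ℝ) with hN
  have hN0 : 0 < N := by positivity
  have hNu : N ≤ 8 * a ^ 2 / D := by
    have h1 : ((a / α + 1 : ℕ) : ℝ) ≤ 2 * a / α := by
      push_cast
      have h2 : ((a / α : ℕ) : ℝ) ≤ a / α := Nat.cast_div_le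
      have h3 : (1 : ℝ) ≤ a / α := by
        rw [le_div_iff₀ hαR]
        linarith
      have h4 : (2 : ℝ) * a / α = a / α + a / α := by ring
      linarith
    have h5 : ((2 * α * a / D + 1 : ℕ) : ℝ) ≤ 4 * α * a / D := by
      push_cast
      have h2 : ((2 * α * a / D : ℕ) : ℝ) ≤ 2 * α * a / D := by
        have := @Nat.cast_div_le ℝ _ _ _ (2 * α * a) D
        push_cast at this
        exact this
      have h3 : (1 : ℝ) ≤ 2 * α * a / D := by
        rw [le_div_iff₀ hDR]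
        nlinarith
      have h4 : (4 : ℝ) * α * a / D = 2 * α * a / D + 2 * α * a / D := by ring
      linarith
    calc N ≤ (2 * a / α) * (4 * α * a / D) := by
          rw [hN]
          exact mul_le_mul h1 h5 (by positivity) (by positivity)
      _ = 8 * a ^ 2 / D := by
          field_simp
          ring
  have hratio : (c : ℝ) ^ 2 / 64 ≤ J.card / (2 * N) := by
    rw [le_div_iff₀ (by positivity), hJc]
    have h1 : (c : ℝ) ^ 2 / 64 * (2 * N) ≤ (c : ℝ) ^ 2 / 64 * (2 * (8 * a ^ 2 / D)) := by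
      gcongr
    have h2 : (B : ℝ) * α / (2 * D) * (B / (2 * α)) ≤ K2 * M1 :=
      mul_le_mul hK2l hM1l (by positivity) (by positivity)
    have h3 : (c : ℝ) ^ 2 / 64 * (2 * (8 * a ^ 2 / D)) = (B : ℝ) * α / (2 * D) * (B / (2 * α)) := by
      rw [hBe]
      field_simp
      ring
    linarith
  have h64 : (1 : ℝ) ≤ (c : ℝ) ^ 2 / 64 := by
    rw [le_div_iff₀ (by norm_num)]
    nlinarith
  have hJn : J.Nonempty := by
    rw [← card_pos]
    by_contra h
    have h1 : J.card = 0 := by omega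
    rw [h1] at hratio
    simp at hratio
    linarith
  have hlog : 2 * N ≤ J.card := by
    have h1 : (1 : ℝ) ≤ J.card / (2 * N) := h64.trans hratio
    rwa [le_div_iff₀ (by positivity), one_mul] at h1
  set E : ℝ := (2 * ((B : ℝ) * α / D) + B / α) * e with hEdef
  have hmain := avg_le p hp Y q J Z E hJn ?_ (range 2 ×ˢ range 4) ψ ?_ N hN0 ?_ hlog
  · have hcard : (((range 2 ×ˢ range 4 : Finset (ℕ × ℕ)).card : ℕ) : ℝ) = 8 := by
      rw [card_product, card_range, card_range]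
      norm_num
    rw [hcard] at hmain
    have hCH : CH p (fun ω => ((X ω).1 / (a : ℤ), (X ω).2 / (a : ℤ)))
        (fun ω => (((X ω).1 / (B : ℤ), (X ω).2 / (B : ℤ)), V ω)) =
        H p Y - H p (fun ω => q (Y ω)) := by
      unfold CH
      rw [H_congr hp.nonneg (X := Y)
        (Y := fun ω => (((X ω).1 / (a : ℤ), (X ω).2 / (a : ℤ)),
          (((X ω).1 / (B : ℤ), (X ω).2 / (B : ℤ)), V ω)))]
      · simp only [hqY]
      · intro ω ω' _ _ h
        have h1 := Prod.ext_iff.1 h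
        have h2 := Prod.ext_iff.1 h1.1
        have h3 : (X ω).1 / (a : ℤ) = (X ω').1 / (a : ℤ) := h2.1
        have h4 : (X ω).2 / (a : ℤ) = (X ω').2 / (a : ℤ) := h2.2
        refine Prod.ext h1.1 (Prod.ext (Prod.ext ?_ ?_) h1.2)
        · simp only [← hdiv, h3]
        · simp only [← hdiv, h4]
      · intro ω ω' _ _ h
        have h1 := Prod.ext_iff.1 h
        exact Prod.ext h1.1 (Prod.ext_iff.1 h1.2).2
    rw [hCH]
    refine le_trans ?_ hmain
    have h1 := Real.log_le_log (by positivity) hratio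
    have h2 : 0 ≤ 1 - 2 * E := by linarith
    have h3 := mul_le_mul_of_nonneg_left h1 h2
    linarith
  · -- the errors
    intro z hz F
    have hz1 : z.1 < K2 := mem_range.1 (mem_product.1 hz).1
    have hz2 : z.2 < M1 := mem_range.1 (mem_product.1 hz).2
    have t1 := tiv_zsmul hy (z.1 : ℤ)
    have t2 := tiv_zsmul hx ((z.2 : ℤ) - sh z.1)
    have t3 := ((ti2_thm Ω U (ℤ × ℤ) p X V _ _ _ _ t1 t2).1)
      {w | ((w.1.1 / (a : ℤ), w.1.2 / (a : ℤ)), w.2) ∈ F}
    have e0 : (z.1 : ℤ) • (γ, δ) + ((z.2 : ℤ) - sh z.1) • ((α : ℤ), β) = d z := by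
      simp only [hd]
      refine Prod.ext ?_ ?_
      · simp
      · simp
    rw [e0] at t3
    have e1 : Pr p {ω | (X ω, V ω) ∈ {w : (ℤ × ℤ) × U |
        ((w.1.1 / (a : ℤ), w.1.2 / (a : ℤ)), w.2) ∈ F}} = Pr p {ω | Y ω ∈ F} :=
      TI.Pr_congr p fun ω => Iff.rfl
    have e2 : Pr p {ω | (X ω + d z, V ω) ∈ {w : (ℤ × ℤ) × U |
        ((w.1.1 / (a : ℤ), w.1.2 / (a : ℤ)), w.2) ∈ F}} = Pr p {ω | Z z ω ∈ F} :=
      TI.Pr_congr p fun ω => Iff.rfl
    rw [e1, e2] at t3
    have t4 := (le_abs_self _).trans t3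
    have t5 : ((z.1 : ℤ).natAbs : ℝ) ≤ (B : ℝ) * α / D := by
      rw [Int.natAbs_natCast]
      have : (z.1 : ℝ) ≤ K2 := by exact_mod_cast hz1.le
      linarith
    have t6 : ((((z.2 : ℤ) - sh z.1).natAbs : ℕ) : ℝ) ≤ (B : ℝ) * α / D + B / α := by
      rw [Nat.cast_natAbs, Int.cast_abs]
      push_cast
      have s1 : |((sh z.1 : ℤ) : ℝ)| ≤ z.1 := by exact_mod_cast hsh1 z.1
      have s2 : |((z.2 : ℝ)) - (sh z.1 : ℝ)| ≤ |(z.2 : ℝ)| + |((sh z.1 : ℤ) : ℝ)| := abs_sub _ _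
      have s3 : |(z.2 : ℝ)| = z.2 := abs_of_nonneg (by positivity)
      have s4 : (z.1 : ℝ) ≤ K2 := by exact_mod_cast hz1.le
      have s5 : (z.2 : ℝ) ≤ M1 := by exact_mod_cast hz2.le
      rw [s3] at s2
      linarith
    have t7 : ((z.1 : ℤ).natAbs : ℝ) * e + ((((z.2 : ℤ) - sh z.1).natAbs : ℕ) : ℝ) * e ≤ E := by
      rw [hEdef, ← add_mul]
      refine mul_le_mul_of_nonneg_right ?_ he
      linarith
    linarith
  · intro κ _ s s' h
    have h1 := Prod.ext_iff.1 h
    have h2 := Prod.ext_iff.1 h1.1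
    simp only [hψ] at h1 h2
    refine Prod.ext (Prod.ext ?_ ?_) h1.2
    · linarith [h2.1]
    · linarith [h2.2]
  · -- the counting bound
    intro s
    unfold law
    rw [Finset.sum_comm]
    rw [Finset.sum_comm (s := range 2 ×ˢ range 4), Finset.mul_sum]
    refine Finset.sum_le_sum fun ω _ => ?_
    have hpω := hp.nonneg ω
    set S : Finset (ℕ × ℕ) := J.filter fun z => Z z ω = s with hS
    refine le_trans (le_of_eq (?_ : _ = (S.card : ℝ) * p ω)) ?_
    · rw [hS, Finset.card_filter]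
      push_cast
      rw [Finset.sum_mul]
      refine Finset.sum_congr rfl fun z _ => ?_
      by_cases hz : Z z ω = s
      · rw [if_pos hz, if_pos hz, one_mul]
      · rw [if_neg hz, if_neg hz, zero_mul]
    rcases S.eq_empty_or_nonempty with h0 | h0
    · rw [h0]
      simp only [card_empty, Nat.cast_zero, zero_mul]
      refine mul_nonneg hN0.le (Finset.sum_nonneg fun κ _ => ?_)
      split_ifs
      · exact hpω
      · exact le_refl _
    · have hcount : (S.card : ℝ) ≤ N := by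
        have h1 := count S α a D β hα hD hβ (fun z => (X ω).1 + (d z).1)
          (fun z => (X ω).2 + (d z).2) ((α : ℤ) * (X ω).2 - β * (X ω).1) ?_ ?_ ?_ ?_
        · rw [hN]
          exact_mod_cast h1
        · intro z _
          have := hd0 z
          linear_combination this
        · intro z _ z' _ h
          simp only [hd, h]
          ring
        · intro z hz z' hz'
          have h1 := congrArg (fun w => w.1.1) (mem_filter.1 hz).2
          have h2 := congrArg (fun w => w.1.1) (mem_filter.1 hz').2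
          simp only [hZ] at h1 h2
          have h3 := h1.trans h2.symm
          have m1 := Int.emod_add_mul_ediv ((X ω).1 + (d z).1) (a : ℤ)
          have m2 := Int.emod_add_mul_ediv ((X ω).1 + (d z').1) (a : ℤ)
          have n1 := Int.emod_nonneg ((X ω).1 + (d z).1) haZ.ne'
          have n2 := Int.emod_lt_of_pos ((X ω).1 + (d z).1) haZ
          have n3 := Int.emod_nonneg ((X ω).1 + (d z').1) haZ.ne'
          have n4 := Int.emod_lt_of_pos ((X ω).1 + (d z').1) haZ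
          rw [h3] at m1
          rw [abs_le]
          constructor <;> linarith
        · intro z hz z' hz'
          have h1 := congrArg (fun w => w.1.2) (mem_filter.1 hz).2
          have h2 := congrArg (fun w => w.1.2) (mem_filter.1 hz').2
          simp only [hZ] at h1 h2
          have h3 := h1.trans h2.symm
          have m1 := Int.emod_add_mul_ediv ((X ω).2 + (d z).2) (a : ℤ)
          have m2 := Int.emod_add_mul_ediv ((X ω).2 + (d z').2) (a : ℤ)
          have n1 := Int.emod_nonneg ((X ω).2 + (d z).2) haZ.ne'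
          have n2 := Int.emod_lt_of_pos ((X ω).2 + (d z).2) haZ
          have n3 := Int.emod_nonneg ((X ω).2 + (d z').2) haZ.ne'
          have n4 := Int.emod_lt_of_pos ((X ω).2 + (d z').2) haZ
          rw [h3] at m1
          rw [abs_le]
          constructor <;> linarith
      obtain ⟨z, hz⟩ := h0
      have hzJ := (mem_filter.1 hz).1
      have hzs := (mem_filter.1 hz).2
      have b1 := hd1 z hzJ
      have b2 := hd2 z hzJ
      -- the coarse cell
      have c1 : (q s).1.1 = ((X ω).1 + (d z).1) / (B : ℤ) := by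
        rw [← hzs]
        simp only [hq, hZ, hdiv]
      have c2 : (q s).1.2 = ((X ω).2 + (d z).2) / (B : ℤ) := by
        rw [← hzs]
        simp only [hq, hZ, hdiv]
      have c3 : (q s).2 = V ω := by
        rw [← hzs]
      have l1 : (X ω).1 / (B : ℤ) ≤ (q s).1.1 := by
        rw [c1]
        exact Int.ediv_le_ediv hBZ (by linarith)
      have l2 : (q s).1.1 ≤ (X ω).1 / (B : ℤ) + 1 := by
        rw [c1, ← Int.add_mul_ediv_right _ _ hBZ.ne']
        exact Int.ediv_le_ediv hBZ (by linarith)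
      have l3 : (X ω).2 / (B : ℤ) - 1 ≤ (q s).1.2 := by
        rw [c2]
        have h1 : (X ω).2 / (B : ℤ) - 1 = ((X ω).2 + (-1) * B) / (B : ℤ) := by
          rw [Int.add_mul_ediv_right _ _ hBZ.ne']
          ring
        rw [h1]
        exact Int.ediv_le_ediv hBZ (by linarith)
      have l4 : (q s).1.2 ≤ (X ω).2 / (B : ℤ) + 2 := by
        rw [c2, ← Int.add_mul_ediv_right _ _ hBZ.ne']
        exact Int.ediv_le_ediv hBZ (by linarith)
      obtain ⟨κ₁, hκ₁⟩ := Int.eq_ofNat_of_zero_le (show 0 ≤ (q s).1.1 - (X ω).1 / (B : ℤ) by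
        linarith)
      obtain ⟨κ₂, hκ₂⟩ := Int.eq_ofNat_of_zero_le
        (show 0 ≤ (q s).1.2 + 1 - (X ω).2 / (B : ℤ) by linarith)
      have hκ : (κ₁, κ₂) ∈ (range 2 ×ˢ range 4 : Finset (ℕ × ℕ)) := by
        rw [mem_product, mem_range, mem_range]
        constructor
        · have : (κ₁ : ℤ) ≤ 1 := by linarith
          show κ₁ < 2
          omega
        · have : (κ₂ : ℤ) ≤ 3 := by linarith
          show κ₂ < 4
          omega
      have hQ : q (Y ω) = ψ (κ₁, κ₂) (q s) := by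
        rw [hqY]
        simp only [hψ]
        refine Prod.ext (Prod.ext ?_ ?_) c3.symm
        · simp only
          linarith
        · simp only
          linarith
      have hsum : p ω ≤ ∑ κ ∈ (range 2 ×ˢ range 4 : Finset (ℕ × ℕ)),
          @ite ℝ (q (Y ω) = ψ κ (q s)) (Classical.propDecidable _) (p ω) 0 := by
        have h1 := Finset.single_le_sum
          (f := fun κ => @ite ℝ (q (Y ω) = ψ κ (q s)) (Classical.propDecidable _) (p ω) 0)
          (fun κ _ => by
            show 0 ≤ @ite ℝ (q (Y ω) = ψ κ (q s)) (Classical.propDecidable _) (p ω) 0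
            split_ifs
            · exact hpω
            · exact le_refl _) hκ
        rw [if_pos hQ] at h1
        exact h1
      exact mul_le_mul hcount hsum hpω hN0.le

/-- The case of a positive determinant and of a positive first coordinate. -/
lemma pos {Ω U : Type} [Fintype Ω] (p : Ω → ℝ) (X : Ω → ℤ × ℤ) (V : Ω → U)
    (α a i D : ℕ) (β γ δ : ℤ) (e c : ℝ) (hp : IsLaw p) (he : 0 ≤ e) (hc : 0 < c) (hc1 : c ≤ 1)
    (hi : 64 / c ≤ i) (hα : 0 < α) (hαa : α ≤ a) (hD : 0 < D) (hβ : |β| ≤ α) (hγ : |γ| ≤ α)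
    (hδ : |δ| ≤ α) (hdet : (D : ℤ) = α * δ - β * γ) (hx : TIV p X V ((α : ℤ), β) e)
    (hy : TIV p X V (γ, δ) e)
    (hH : CH p (fun ω => ((X ω).1 / (a : ℤ), (X ω).2 / (a : ℤ)))
      (fun ω => (((X ω).1 / ((2 ^ i * a : ℕ) : ℤ), (X ω).2 / ((2 ^ i * a : ℕ) : ℤ)), V ω)) ≤
      (2 - c) * i * Real.log 2) :
    (α : ℝ) ≤ 64 / c * e * (2 ^ i * a) ∨ (D : ℝ) ≤ 64 / c * e * (2 ^ i * a) * α := by
  by_contra hcon
  push Not at hcon
  obtain ⟨h1, h2⟩ := hcon
  have hαR : (0 : ℝ) < α := by exact_mod_cast hα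
  have hDR : (0 : ℝ) < D := by exact_mod_cast hD
  have haR : (0 : ℝ) < a := by
    have : 0 < a := lt_of_lt_of_le hα hαa
    exact_mod_cast this
  have hi64 : (64 : ℝ) ≤ i := by
    refine le_trans ?_ hi
    rw [le_div_iff₀ hc]
    linarith
  have hci : 64 ≤ c * i := by
    rw [div_le_iff₀ hc] at hi
    linarith
  have hi64' : 64 ≤ i := by exact_mod_cast hi64
  have h8 : 8 ≤ 2 ^ i := by
    calc 8 = 2 ^ 3 := by norm_num
      _ ≤ 2 ^ i := Nat.pow_le_pow_right (by norm_num) (by omega)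
  set B : ℝ := 2 ^ i * a with hB
  have hB0 : 0 < B := by positivity
  have e1 : B / α * e ≤ c / 64 := by
    rw [div_mul_eq_mul_div, div_le_iff₀ hαR]
    have : 64 / c * e * B = 64 * (B * e) / c := by ring
    rw [this, div_lt_iff₀ hc] at h1
    linarith
  have e2 : B * α / D * e ≤ c / 64 := by
    rw [div_mul_eq_mul_div, div_le_iff₀ hDR]
    have : 64 / c * e * B * α = 64 * (B * α * e) / c := by ring
    rw [this, div_lt_iff₀ hc] at h2
    linarith
  have hBn : ((a * 2 ^ i : ℕ) : ℝ) = B := by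
    rw [hB]
    push_cast
    ring
  have hBz : ((2 ^ i * a : ℕ) : ℤ) = ((a * 2 ^ i : ℕ) : ℤ) := by rw [Nat.mul_comm]
  have hE : (2 * (B * α / D) + B / α) * e ≤ 3 * c / 64 := by
    have : (2 * (B * α / D) + B / α) * e = 2 * (B * α / D * e) + B / α * e := by ring
    rw [this]
    linarith
  have hf := full2 p hp X V α a (2 ^ i) D β γ δ e he hα hαa h8 hD hβ hγ hδ hdet hx hy (by
    rw [hBn]
    linarith)
  rw [hBn] at hf
  rw [hBz] at hH
  have hlog : Real.log (((2 ^ i : ℕ) : ℝ) ^ 2 / 64) = 2 * i * Real.log 2 - 6 * Real.log 2 := by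
    have h64 : (64 : ℝ) = 2 ^ 6 := by norm_num
    rw [h64, Real.log_div (by positivity) (by positivity)]
    push_cast
    rw [← pow_mul, Real.log_pow, Real.log_pow]
    push_cast
    ring
  rw [hlog] at hf
  have hL := Real.log_two_gt_d9
  have hL1 := Real.log_two_lt_d9
  set L : ℝ := Real.log 2 with hLdef
  have hpos : 0 ≤ 2 * i * L - 6 * L := by
    have : 2 * i * L - 6 * L = (2 * i - 6) * L := by ring
    rw [this]
    refine mul_nonneg (by linarith) (by linarith)
  have h3 : (1 - 2 * (3 * c / 64)) * (2 * i * L - 6 * L) ≤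
      (1 - 2 * ((2 * (B * α / D) + B / α) * e)) * (2 * i * L - 6 * L) :=
    mul_le_mul_of_nonneg_right (by linarith) hpos
  have h4 : (1 - 2 * (3 * c / 64)) * (2 * i * L - 6 * L) - 8 ≤ (2 - c) * i * L := by linarith
  have h5 : (13 / 16) * (c * i) * L + 9 / 16 * c * L ≤ 6 * L + 8 := by
    have : (1 - 2 * (3 * c / 64)) * (2 * i * L - 6 * L) =
      2 * i * L - 6 * L - 3 / 16 * (c * i) * L + 9 / 16 * c * L := by ring
    rw [this] at h4
    have h6 : (2 - c) * i * L = 2 * i * L - (c * i) * L := by ring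
    rw [h6] at h4
    linarith
  have h6 : (13 / 16) * (64 : ℝ) * L ≤ (13 / 16) * (c * i) * L := by
    have : (13 / 16) * (64 : ℝ) ≤ (13 / 16) * (c * i) := by linarith
    exact mul_le_mul_of_nonneg_right this (by linarith)
  have h7 : 0 ≤ 9 / 16 * c * L := by
    have : 0 ≤ L := by linarith
    positivity
  linarith

/-- The opposite invariance. -/
lemma tiv_neg {Ω U : Type} [Fintype Ω] {p : Ω → ℝ} {X : Ω → ℤ × ℤ} {V : Ω → U} {x : ℤ × ℤ}
    {e : ℝ} (h : TIV p X V x e) : TIV p X V (-x) e :=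
  (ti2_thm Ω U (ℤ × ℤ) p X V x x e e h h).2.1

/-- The case where the first coordinate is the largest one. -/
lemma fst {Ω U : Type} [Fintype Ω] (p : Ω → ℝ) (X : Ω → ℤ × ℤ) (V : Ω → U)
    (x y : ℤ × ℤ) (a i : ℕ) (e c : ℝ) (hp : IsLaw p) (ha : 0 < a) (he : 0 ≤ e) (hc : 0 < c)
    (hc1 : c ≤ 1) (hi : 64 / c ≤ i) (hxa : |x.1| ≤ a) (hx21 : |x.2| ≤ |x.1|)
    (hy1 : |y.1| ≤ |x.1|) (hy2 : |y.2| ≤ |x.1|)
    (hx : TIV p X V x e) (hy : TIV p X V y e)
    (hH : CH p (fun ω => ((X ω).1 / (a : ℤ), (X ω).2 / (a : ℤ)))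
      (fun ω => (((X ω).1 / ((2 ^ i * a : ℕ) : ℤ), (X ω).2 / ((2 ^ i * a : ℕ) : ℤ)), V ω)) ≤
      (2 - c) * i * Real.log 2) :
    (|(x.1 : ℝ)|) ≤ 64 / c * e * (2 ^ i * a) ∨
      |(dt x y : ℝ)| ≤ 64 / c * e * (2 ^ i * a) * |(x.1 : ℝ)| := by
  have hR0 : 0 ≤ 64 / c * e * (2 ^ i * a) := by positivity
  rcases eq_or_ne x.1 0 with h0 | h0
  · left
    rw [h0]
    simpa using hR0
  rcases eq_or_ne (dt x y) 0 with hd | hd
  · right
    rw [hd]
    simp only [Int.cast_zero, abs_zero]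
    positivity
  set α : ℕ := x.1.natAbs with hα
  have hα0 : 0 < α := Int.natAbs_pos.2 h0
  have hαZ : (α : ℤ) = |x.1| := (Int.abs_eq_natAbs x.1).symm
  have hαR : (α : ℝ) = |(x.1 : ℝ)| := by
    rw [hα, Nat.cast_natAbs, Int.cast_abs]
  set D : ℕ := (dt x y).natAbs with hD
  have hD0 : 0 < D := Int.natAbs_pos.2 hd
  have hDZ : (D : ℤ) = |dt x y| := (Int.abs_eq_natAbs _).symm
  have hDR : (D : ℝ) = |(dt x y : ℝ)| := by
    rw [hD, Nat.cast_natAbs, Int.cast_abs]
  rw [← hαR, ← hDR]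
  have hαa : α ≤ a := by
    have : (α : ℤ) ≤ a := hαZ ▸ hxa
    exact_mod_cast this
  rw [← hαZ] at hx21 hy1 hy2
  -- the signs
  obtain ⟨x', hx', hx1, hx2, hdx⟩ : ∃ x' : ℤ × ℤ, TIV p X V x' e ∧ x'.1 = α ∧ |x'.2| ≤ α ∧
      (dt x' y = dt x y ∨ dt x' y = -dt x y) := by
    rcases le_total 0 x.1 with h | h
    · exact ⟨x, hx, by rw [hαZ, abs_of_nonneg h], hx21, Or.inl rfl⟩
    · refine ⟨-x, tiv_neg hx, ?_, ?_, Or.inr ?_⟩
      · rw [hαZ, abs_of_nonpos h]
        rfl
      · show |(-x.2)| ≤ (α : ℤ)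
        rw [abs_neg]
        exact hx21
      · unfold dt
        simp only [Prod.fst_neg, Prod.snd_neg]
        ring
  obtain ⟨y', hy', hy1', hy2', hdy⟩ : ∃ y' : ℤ × ℤ, TIV p X V y' e ∧ |y'.1| ≤ α ∧ |y'.2| ≤ α ∧
      dt x' y' = |dt x y| := by
    have h1 : |dt x' y| = |dt x y| := by
      rcases hdx with h | h
      · rw [h]
      · rw [h, abs_neg]
    rcases le_total 0 (dt x' y) with h | h
    · exact ⟨y, hy, hy1, hy2, by rw [← h1, abs_of_nonneg h]⟩
    · refine ⟨-y, tiv_neg hy, ?_, ?_, ?_⟩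
      · show |(-y.1)| ≤ (α : ℤ)
        rw [abs_neg]
        exact hy1
      · show |(-y.2)| ≤ (α : ℤ)
        rw [abs_neg]
        exact hy2
      · rw [← h1, abs_of_nonpos h]
        unfold dt
        simp only [Prod.fst_neg, Prod.snd_neg]
        ring
  have ex : x' = ((α : ℤ), x'.2) := Prod.ext hx1 rfl
  have ey : y' = (y'.1, y'.2) := rfl
  rw [ex] at hx'
  rw [ey] at hy'
  refine pos p X V α a i D x'.2 y'.1 y'.2 e c hp he hc hc1 hi hα0 hαa hD0 hx2 hy1' hy2' ?_ hx' hy'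
    hH
  rw [hDZ, ← hdy]
  unfold dt
  rw [hx1]

end SIN

theorem sin_thm : SINStmt := by
  intro Ω U _ p X V x y a i e c hp ha he hc hc1 hi hxa hyx hx hy hH
  have hx1 : |x.1| ≤ nrm x := le_max_left _ _
  have hx2 : |x.2| ≤ nrm x := le_max_right _ _
  have hy1 : |y.1| ≤ nrm x := (le_max_left _ _).trans hyx
  have hy2 : |y.2| ≤ nrm x := (le_max_right _ _).trans hyx
  rcases le_total |x.2| |x.1| with h | h
  · have hn : nrm x = |x.1| := max_eq_left h
    rw [hn] at hx1 hx2 hy1 hy2 hxa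
    have h1 := SIN.fst p X V x y a i e c hp ha he hc hc1 hi hxa hx2 hy1 hy2 hx hy hH
    have h2 : ((nrm x : ℤ) : ℝ) = |(x.1 : ℝ)| := by rw [hn, Int.cast_abs]
    rw [h2]
    exact h1
  · have hn : nrm x = |x.2| := max_eq_right h
    rw [hn] at hx1 hx2 hy1 hy2 hxa
    have hsw : ∀ z : ℤ × ℤ, TIV p X V z e → TIV p (fun ω => (X ω).swap) V z.swap e := by
      intro z hz E
      exact hz {w | (w.1.swap, w.2) ∈ E}
    have hH' : CH p (fun ω => (((X ω).swap).1 / (a : ℤ), ((X ω).swap).2 / (a : ℤ)))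
      (fun ω => ((((X ω).swap).1 / ((2 ^ i * a : ℕ) : ℤ),
        ((X ω).swap).2 / ((2 ^ i * a : ℕ) : ℤ)), V ω)) ≤ (2 - c) * i * Real.log 2 := by
      refine le_trans (le_of_eq ?_) hH
      refine CH_congr hp.nonneg ?_ ?_ ?_ ?_
      · intro ω ω' _ _ h
        have h1 := Prod.ext_iff.1 (Prod.ext_iff.1 h).1
        exact Prod.ext h1.2 h1.1
      · intro ω ω' _ _ h
        have h1 := Prod.ext_iff.1 (Prod.ext_iff.1 h).1
        exact Prod.ext h1.2 h1.1
      · intro ω ω' _ _ h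
        have h1 := Prod.ext_iff.1 h
        have h2 := Prod.ext_iff.1 h1.1
        exact Prod.ext (Prod.ext h2.2 h2.1) h1.2
      · intro ω ω' _ _ h
        have h1 := Prod.ext_iff.1 h
        have h2 := Prod.ext_iff.1 h1.1
        exact Prod.ext (Prod.ext h2.2 h2.1) h1.2
    have h1 := SIN.fst p (fun ω => (X ω).swap) V x.swap y.swap a i e c hp ha he hc hc1 hi hxa hx1
      hy2 hy1 (hsw x hx) (hsw y hy) hH'
    have h2 : ((nrm x : ℤ) : ℝ) = |(x.2 : ℝ)| := by rw [hn, Int.cast_abs]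
    have h3 : |(dt x.swap y.swap : ℝ)| = |(dt x y : ℝ)| := by
      have : dt x.swap y.swap = -dt x y := by
        unfold dt
        simp only [Prod.fst_swap, Prod.snd_swap]
        ring
      rw [this, Int.cast_neg, abs_neg]
    rw [h3] at h1
    rw [h2]
    exact h1

end Pool.KAL
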